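import Pool.Agent.H57.LCI.Inj
import Pool.Agent.H53.NR.Defs

/-!
# Structures with local completions are finitely bounded
-/

set_option autoImplicit false

namespace Pool.Agent.H57.LCI

open Pool.Agent.H68.BP Pool.Agent.H58.SF Pool.Agent.H53.GM
open Pool.Agent.H53.NR (pull)
open Function

/-- a structure whose age is determined by the structures with at most `M` elements is finitely
bounded -/
theorem bounded_of_local {ρ : Sig} {B : Type} {𝔹 : Str ρ B} (M : ℕ)
    (hM : ∀ (n : ℕ) (𝕏 : Str ρ (Fin n)), (∀ (m : ℕ) (s : Fin m → Fin n), m ≤ M → Injective s →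
      Embeds (pull 𝕏 s) 𝔹) → Embeds 𝕏 𝔹) : FinitelyBounded 𝔹 := by
  classical
  have hfin : {D : (Σ n : ℕ, Str ρ (Fin n)) | D.1 ≤ M ∧ ¬ Embeds D.2 𝔹}.Finite := by
    have h1 : Finite (Σ m : Fin (M + 1), Str ρ (Fin (m : ℕ))) := inferInstance
    refine Set.Finite.subset (Set.finite_range
      (fun q : (Σ m : Fin (M + 1), Str ρ (Fin (m : ℕ))) =>
        (⟨(q.1 : ℕ), q.2⟩ : Σ n : ℕ, Str ρ (Fin n)))) ?_
    rintro ⟨n, D⟩ ⟨h2, -⟩
    exact ⟨⟨⟨n, Nat.lt_succ_of_le h2⟩, D⟩, rfl⟩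
  have hN : ∀ p : (Σ n : ℕ, Str ρ (Fin n)), p ∈ hfin.toFinset.toList ↔
      p.1 ≤ M ∧ ¬ Embeds p.2 𝔹 := by
    intro p
    rw [Finset.mem_toList, Set.Finite.mem_toFinset]
    rfl
  refine ⟨hfin.toFinset.toList, fun n 𝕏 => ⟨fun ⟨f, hf1, hf2⟩ p hp ⟨g, hg1, hg2⟩ => ?_,
    fun h => hM n 𝕏 fun m s hm hs => ?_⟩⟩
  · exact ((hN p).1 hp).2 ⟨fun i => f (g i), hf1.comp hg1,
      fun l z => (hg2 l z).trans (hf2 l fun i => g (z i))⟩
  · by_contra h1
    exact h ⟨m, pull 𝕏 s⟩ ((hN _).2 ⟨hm, h1⟩) ⟨s, hs, fun l z => Iff.rfl⟩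

theorem bounded_of_lc {ρ : Sig} {B : Type} [Nonempty B] {𝔹 : Str ρ B}
    (hL : LocalCompletions 𝔹) : FinitelyBounded 𝔹 := by
  classical
  obtain ⟨M, hM⟩ := hL (max 2 ρ.width)
  refine bounded_of_local M fun n 𝕏 h𝕏 => ?_
  obtain ⟨f, hf⟩ := hM n {p | p.1 ≤ max 2 ρ.width ∧ Injective p.2.1 ∧ p.2.2 = pull 𝕏 p.2.1}
    (fun p hp => hp.1) (by
      intro U hU
      have e := U.equivFin.symm
      obtain ⟨f₀, hf1, hf2⟩ := h𝕏 U.card (fun i => (e i : Fin n)) hU
        (fun i j hij => e.injective (Subtype.ext hij))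
      have hfx : ∀ (x : Fin n) (hx : x ∈ U),
          (fun x => if hx : x ∈ U then f₀ (e.symm ⟨x, hx⟩) else Classical.arbitrary B) x =
            f₀ (e.symm ⟨x, hx⟩) := fun x hx => dif_pos hx
      refine ⟨fun x => if hx : x ∈ U then f₀ (e.symm ⟨x, hx⟩) else Classical.arbitrary B, ?_⟩
      rintro ⟨j, s, S⟩ ⟨-, hs, hS⟩ hU'
      refine ⟨fun a b hab => ?_, fun l z => ?_⟩
      · rw [hfx _ (hU' a), hfx _ (hU' b)] at hab
        have h1 := congrArg Subtype.val (e.symm.injective (hf1 hab))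
        exact hs h1
      · have h1 := hf2 l (fun i => e.symm ⟨s (z i), hU' (z i)⟩)
        have h2 : (fun i => ((e (e.symm ⟨s (z i), hU' (z i)⟩) : U) : Fin n)) =
            fun i => s (z i) := by
          funext i
          rw [Equiv.apply_symm_apply]
        have h3 : pull 𝕏 (fun i => ((e i : U) : Fin n)) l
            (fun i => e.symm ⟨s (z i), hU' (z i)⟩) ↔ 𝕏 l (fun i => s (z i)) := by
          show 𝕏 l (fun i => ((e (e.symm ⟨s (z i), hU' (z i)⟩) : U) : Fin n)) ↔ _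
          rw [h2]
        have h4 : (fun i => (fun x => if hx : x ∈ U then f₀ (e.symm ⟨x, hx⟩)
            else Classical.arbitrary B) (s (z i))) = fun i => f₀ (e.symm ⟨s (z i), hU' (z i)⟩) :=
          funext fun i => hfx _ (hU' (z i))
        show S l z ↔ 𝔹 l (fun i => (fun x => if hx : x ∈ U then f₀ (e.symm ⟨x, hx⟩)
            else Classical.arbitrary B) (s (z i)))
        rw [h4, ← h1, h3]
        show S l z ↔ _
        rw [show S = pull 𝕏 s from hS]
        rfl)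
  refine ⟨f, fun i j hij => ?_, fun l z => ?_⟩
  · by_contra hne
    have h1 := hf ⟨2, ![i, j], pull 𝕏 ![i, j]⟩ ⟨le_max_left _ _, ?_, rfl⟩
    · have h2 : (0 : Fin 2) = 1 := h1.1 (a₁ := (0 : Fin 2)) (a₂ := (1 : Fin 2)) hij
      exact Fin.zero_ne_one h2
    · intro a b hab
      fin_cases a <;> fin_cases b
      · rfl
      · exact absurd hab hne
      · exact absurd hab.symm hne
      · rfl
  · have hc : (Finset.univ.image z).card ≤ max 2 ρ.width := by
      refine le_trans Finset.card_image_le ?_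
      rw [Finset.card_univ, Fintype.card_fin]
      exact le_trans (Finset.le_sup (f := ρ.ar) (Finset.mem_univ l)) (le_max_right _ _)
    have e := (Finset.univ.image z).equivFin.symm
    have h1 := (hf ⟨(Finset.univ.image z).card, fun i => (e i : Fin n),
      pull 𝕏 fun i => (e i : Fin n)⟩ ⟨hc, fun a b hab => e.injective (Subtype.ext hab), rfl⟩).2 l
      (fun i => e.symm ⟨z i, Finset.mem_image_of_mem z (Finset.mem_univ i)⟩)
    have h2 : (fun i => ((e (e.symm ⟨z i, Finset.mem_image_of_mem z (Finset.mem_univ i)⟩) :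
        Finset.univ.image z) : Fin n)) = z := by
      funext i
      rw [Equiv.apply_symm_apply]
    have h3 : (𝕏 l (fun i => ((e (e.symm ⟨z i, Finset.mem_image_of_mem z (Finset.mem_univ i)⟩) :
        Finset.univ.image z) : Fin n))) ↔ 𝔹 l (fun i => f ((e (e.symm ⟨z i,
          Finset.mem_image_of_mem z (Finset.mem_univ i)⟩) : Finset.univ.image z) : Fin n)) := h1
    have h4 : (fun i => f ((e (e.symm ⟨z i,
          Finset.mem_image_of_mem z (Finset.mem_univ i)⟩) : Finset.univ.image z) : Fin n)) =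
        fun i => f (z i) := by
      funext i
      rw [Equiv.apply_symm_apply]
    rw [h2, h4] at h3
    exact h3

/-- the statement for structures with local completions -/
theorem pf_lc (hG : T_GMSNP) (ρ σ : Sig) (B : Type) [Countable B] [Nonempty B]
    (𝔹 : Str ρ B) (𝔸 : Str σ B) (hH : Homogeneous 𝔹) (hL : LocalCompletions 𝔹)
    (hA : ∀ g : B ≃ B, IsAut 𝔹 g → IsAut 𝔸 g) (har : ∀ l, 1 ≤ σ.ar l)
    (hinj : ∀ l x, 𝔸 l x → Injective x) :
    FinitelyBounded 𝔹 ∧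
    (PPConstructsK3 𝔸 ∨ ∃ (ρ' : Sig) (T : Type) (_ : Finite T) (𝕋 : Str ρ' T),
      ¬ PPConstructsK3 𝕋 ∧ N793a5b8e.ManyOneReducible (CSP 𝔸) (CSP 𝕋)) :=
  ⟨bounded_of_lc hL, pf_inj hG ρ σ B 𝔹 𝔸 hH hL hA har hinj⟩

end Pool.Agent.H57.LCI
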