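import Pool.Agent.H58.SF.Defs

/-!
# Coloured patterns, local completions and metric spaces: definitions
-/

set_option autoImplicit false

namespace Pool.Agent.H57.LCI

open Pool.Agent.H68.BP Pool.Agent.H58.SF

/-! ### Coloured patterns -/

/-- `M` is a colouring of `𝕏`: each tuple in a relation of `𝕏` has an allowed colour. -/
def Cols {σ τ : Sig} {W : Type} (Al : Fin σ.m → Fin τ.m → Prop) (M : Str τ W) (𝕏 : Str σ W) :
    Prop :=
  ∀ (l : Fin σ.m) (z : Fin (σ.ar l) → W), 𝕏 l z →
    ∃ c, Al l c ∧ ∃ h : τ.ar c = σ.ar l, M c (fun i => z (Fin.cast h i))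

/-- No structure in the list `L` has a homomorphism to `M`. -/
def Avoids {τ : Sig} {W : Type} (L : List (Σ n : ℕ, Str τ (Fin n))) (M : Str τ W) : Prop :=
  ∀ D ∈ L, ∀ f : Fin D.1 → W, ¬ IsHom D.2 M f

/-! ### Local completions -/

/-- A prescription on the set `X`: a tuple `s` of length `j` and a structure on `{0, …, j - 1}`,
the prescribed structure on the tuple. -/
abbrev Pre (ρ : Sig) (X : Type) : Type := Σ j : ℕ, (Fin j → X) × Str ρ (Fin j)

/-- The map `f` realizes the prescription `p`: the composition with the tuple is an embedding of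
the prescribed structure. -/
def Realizes {ρ : Sig} {X B : Type} (𝔹 : Str ρ B) (f : X → B) (p : Pre ρ X) : Prop :=
  IsEmb p.2.2 𝔹 (fun i => f (p.2.1 i))

/-- The structure `𝔹` has local completions: for every `r` there is `M` such that for every set
`P` of prescriptions on tuples of length at most `r` with entries in `{0, …, n - 1}`: if for each
set `U` of at most `M` elements there is a map to `𝔹` which realizes the prescriptions on the
tuples with entries in `U`, then there is a map which realizes all of them. -/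
def LocalCompletions {ρ : Sig} {B : Type} (𝔹 : Str ρ B) : Prop :=
  ∀ r : ℕ, ∃ M : ℕ, ∀ (n : ℕ) (P : Set (Pre ρ (Fin n))), (∀ p ∈ P, p.1 ≤ r) →
    (∀ U : Finset (Fin n), U.card ≤ M →
      ∃ f : Fin n → B, ∀ p ∈ P, (∀ i, p.2.1 i ∈ U) → Realizes 𝔹 f p) →
    ∃ f : Fin n → B, ∀ p ∈ P, Realizes 𝔹 f p

/-! ### Metric spaces -/

/-- `n` binary relation symbols -/
def mSig (n : ℕ) : Sig := ⟨n, fun _ => 2⟩

/-- `d` is a metric with values in `{0, …, n}` -/
structure IsMet {X : Type} (n : ℕ) (d : X → X → ℕ) : Prop where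
  zero : ∀ x y, d x y = 0 ↔ x = y
  symm : ∀ x y, d x y = d y x
  tri : ∀ x y z, d x z ≤ d x y + d y z
  le : ∀ x y, d x y ≤ n

/-- The finite structures which embed into `𝔹` are the finite metric spaces with distances in
`{1, …, n}`; the symbol `l` is the relation `distance l + 1`. -/
def MetricAge {B : Type} (n : ℕ) (𝔹 : Str (mSig n) B) : Prop :=
  ∀ (k : ℕ) (𝕏 : Str (mSig n) (Fin k)), Embeds 𝕏 𝔹 ↔
    ∃ d : Fin k → Fin k → ℕ, IsMet n d ∧
      ∀ (l : Fin n) (z : Fin 2 → Fin k), 𝕏 l z ↔ d (z 0) (z 1) = (l : ℕ) + 1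

end Pool.Agent.H57.LCI
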