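import Pool.Agent.H57.LCI.Defs
import Pool.Agent.H53.GM.Targets
import Pool.Agent.H58.SF.MH

/-!
# Reducts with injective relations of structures with local completions
-/

set_option autoImplicit false

namespace Pool.Agent.H57.LCI

open Pool.Agent.H68.BP Pool.Agent.H58.SF Pool.Agent.H53.GM
open Function

/-- the theorem on forbidden coloured patterns -/
def T_GMSNP : Prop :=
  ∀ (τ σ : Sig) (Al : Fin σ.m → Fin τ.m → Prop) (L : List (Σ n : ℕ, Str τ (Fin n))) (A : Type)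
    (𝔸 : Str σ A), Countable A → Nonempty A → Oligo 𝔸 → (∀ l, 1 ≤ τ.ar l) →
    (∀ (n : ℕ) (𝕏 : Str σ (Fin n)), (∃ f, IsHom 𝕏 𝔸 f) ↔
      ∃ M : Str τ (Fin n), Avoids L M ∧ Cols Al M 𝕏) →
    PPConstructsK3 𝔸 ∨ ∃ (ρ : Sig) (T : Type) (_ : Finite T) (𝕋 : Str ρ T),
      ¬ PPConstructsK3 𝕋 ∧ N793a5b8e.ManyOneReducible (CSP 𝔸) (CSP 𝕋)

section sym

variable (ρ σ : Sig)

/-- the colours: a symbol and a structure on its places -/
abbrev Co : Type := Σ l : Fin σ.m, Str ρ (Fin (σ.ar l))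

instance str_finite (a : ℕ) : Finite (Str ρ (Fin a)) := by
  unfold Str
  infer_instance

instance co_finite : Finite (Co ρ σ) := inferInstance

/-- the numbering of the colours -/
noncomputable def nu : Fin (Nat.card (Co ρ σ)) ≃ Co ρ σ := (Finite.equivFin (Co ρ σ)).symm

/-- the signature of the colours -/
noncomputable def cs : Sig := ⟨Nat.card (Co ρ σ), fun c => σ.ar (nu ρ σ c).1⟩

end sym

section main

variable {ρ σ : Sig} {B X : Type}

/-- the prescriptions of a coloured structure -/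
def pres (M : Str (cs ρ σ) X) : Set (Pre ρ X) :=
  {p | ∃ (c : Fin (cs ρ σ).m) (z : Fin ((cs ρ σ).ar c) → X), M c z ∧
    p = ⟨(cs ρ σ).ar c, z, (nu ρ σ c).2⟩}

/-- the coloured structure is realized by a map to `𝔹` -/
def Real (𝔹 : Str ρ B) (M : Str (cs ρ σ) X) : Prop := ∃ f : X → B, ∀ p ∈ pres M, Realizes 𝔹 f p

theorem real_iff {𝔹 : Str ρ B} {M : Str (cs ρ σ) X} {f : X → B} :
    (∀ p ∈ pres M, Realizes 𝔹 f p) ↔
      ∀ (c : Fin (cs ρ σ).m) (z : Fin ((cs ρ σ).ar c) → X), M c z →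
        IsEmb (nu ρ σ c).2 𝔹 (fun i => f (z i)) := by
  constructor
  · intro h c z hz
    exact h _ ⟨c, z, hz, rfl⟩
  · rintro h _ ⟨c, z, hz, rfl⟩
    exact h c z hz

theorem real_hom {𝔹 : Str ρ B} {Y : Type} {D : Str (cs ρ σ) Y} {M : Str (cs ρ σ) X}
    {g : Y → X} (hg : IsHom D M g) (hM : Real 𝔹 M) : Real 𝔹 D := by
  obtain ⟨f, hf⟩ := hM
  rw [real_iff] at hf
  refine ⟨fun y => f (g y), real_iff.2 fun c z hz => hf c _ (hg c z hz)⟩

/-- the allowed colours -/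
def al (𝔹 : Str ρ B) (𝔸 : Str σ B) (l : Fin σ.m) (c : Fin (cs ρ σ).m) : Prop :=
  (nu ρ σ c).1 = l ∧ ∃ x : Fin (σ.ar (nu ρ σ c).1) → B, 𝔸 (nu ρ σ c).1 x ∧ IsEmb (nu ρ σ c).2 𝔹 x

/-- the list of the coloured structures with at most `M` elements which are not realized -/
theorem exists_list (𝔹 : Str ρ B) (M : ℕ) : ∃ L : List (Σ n : ℕ, Str (cs ρ σ) (Fin n)),
    ∀ D : (Σ n : ℕ, Str (cs ρ σ) (Fin n)), D ∈ L ↔ D.1 ≤ M ∧ ¬ Real 𝔹 D.2 := by
  classical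
  have hfin : {D : (Σ n : ℕ, Str (cs ρ σ) (Fin n)) | D.1 ≤ M ∧ ¬ Real 𝔹 D.2}.Finite := by
    have h1 : Finite (Σ m : Fin (M + 1), Str (cs ρ σ) (Fin (m : ℕ))) := inferInstance
    refine Set.Finite.subset (Set.finite_range
      (fun q : (Σ m : Fin (M + 1), Str (cs ρ σ) (Fin (m : ℕ))) =>
        (⟨(q.1 : ℕ), q.2⟩ : Σ n : ℕ, Str (cs ρ σ) (Fin n)))) ?_
    rintro ⟨n, D⟩ ⟨h2, -⟩
    exact ⟨⟨⟨n, Nat.lt_succ_of_le h2⟩, D⟩, rfl⟩
  refine ⟨hfin.toFinset.toList, fun D => ?_⟩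
  rw [Finset.mem_toList, Set.Finite.mem_toFinset]
  rfl

theorem cast_col {𝔸 : Str σ B} {l : Fin σ.m} {q : Fin σ.m} (hq : q = l)
    (h : σ.ar q = σ.ar l) (y : Fin (σ.ar l) → B) (hy : 𝔸 q (fun i => y (Fin.cast h i))) :
    𝔸 l y := by
  subst hq
  exact hy

theorem pf_inj (hG : T_GMSNP) (ρ σ : Sig) (B : Type) [Countable B] [Nonempty B]
    (𝔹 : Str ρ B) (𝔸 : Str σ B) (hH : Homogeneous 𝔹) (hL : LocalCompletions 𝔹)
    (hA : ∀ g : B ≃ B, IsAut 𝔹 g → IsAut 𝔸 g) (har : ∀ l, 1 ≤ σ.ar l)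
    (hinj : ∀ l x, 𝔸 l x → Injective x) :
    PPConstructsK3 𝔸 ∨ ∃ (ρ' : Sig) (T : Type) (_ : Finite T) (𝕋 : Str ρ' T),
      ¬ PPConstructsK3 𝕋 ∧ N793a5b8e.ManyOneReducible (CSP 𝔸) (CSP 𝕋) := by
  classical
  obtain ⟨M, hM⟩ := hL (Finset.univ.sup σ.ar)
  obtain ⟨L, hLL⟩ := exists_list (σ := σ) 𝔹 M
  have hol : Oligo 𝔸 := by
    intro n
    obtain ⟨R, hR⟩ := oligo_autGroup hH n
    refine ⟨R, fun x => ?_⟩
    obtain ⟨y, hy, g, hg, hgy⟩ := hR x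
    exact ⟨y, hy, g, hA g hg, hgy⟩
  refine hG (cs ρ σ) σ (al 𝔹 𝔸) L B 𝔸 inferInstance inferInstance hol
    (fun c => har (nu ρ σ c).1) ?_
  intro n 𝕏
  constructor
  · rintro ⟨f, hf⟩
    refine ⟨fun c z => IsEmb (nu ρ σ c).2 𝔹 (fun i => f (z i)), ?_, ?_⟩
    · intro D hD g hg
      refine ((hLL D).1 hD).2 (real_hom hg ⟨f, real_iff.2 fun c z hz => hz⟩)
    · intro l z hz
      have h1 : 𝔸 l (fun i => f (z i)) := hf l z hz
      have h2 : IsEmb (fun (k : Fin ρ.m) (w : Fin (ρ.ar k) → Fin (σ.ar l)) =>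
          𝔹 k (fun i => f (z (w i)))) 𝔹 (fun i => f (z i)) :=
        ⟨hinj l _ h1, fun k w => Iff.rfl⟩
      have h3 : ∀ s : Co ρ σ, s = ⟨l, fun (k : Fin ρ.m) (w : Fin (ρ.ar k) → Fin (σ.ar l)) =>
          𝔹 k (fun i => f (z (w i)))⟩ →
          (s.1 = l ∧ ∃ x : Fin (σ.ar s.1) → B, 𝔸 s.1 x ∧ IsEmb s.2 𝔹 x) ∧
          ∃ h : σ.ar s.1 = σ.ar l, IsEmb s.2 𝔹 (fun i => f (z (Fin.cast h i))) := by
        rintro s rfl
        exact ⟨⟨rfl, _, h1, h2⟩, rfl, h2⟩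
      have h4 := h3 (nu ρ σ ((nu ρ σ).symm ⟨l, fun (k : Fin ρ.m)
        (w : Fin (ρ.ar k) → Fin (σ.ar l)) => 𝔹 k (fun i => f (z (w i)))⟩))
        (Equiv.apply_symm_apply _ _)
      exact ⟨_, h4.1, h4.2⟩
  · rintro ⟨N, hN1, hN2⟩
    obtain ⟨f, hf⟩ := hM n (pres N) (by
      rintro _ ⟨c, z, -, rfl⟩
      exact Finset.le_sup (f := σ.ar) (Finset.mem_univ _)) (by
      intro U hU
      have e := U.equivFin.symm
      have hD : Real 𝔹 (fun c (z : Fin ((cs ρ σ).ar c) → Fin U.card) => N c (fun i => (e (z i) : Fin n))) := by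
        by_contra hD
        exact hN1 ⟨U.card, _⟩ ((hLL ⟨U.card, _⟩).2 ⟨hU, hD⟩) (fun i => (e i : Fin n))
          (fun c z hz => hz)
      obtain ⟨f₀, hf₀⟩ := hD
      rw [real_iff] at hf₀
      refine ⟨fun x => if hx : x ∈ U then f₀ (e.symm ⟨x, hx⟩) else Classical.arbitrary B, ?_⟩
      rintro _ ⟨c, z, hz, rfl⟩ hzU
      have h1 := hf₀ c (fun i => e.symm ⟨z i, hzU i⟩) (by
        have h2 : (fun i => ((e (e.symm ⟨z i, hzU i⟩) : U) : Fin n)) = z := by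
          funext i
          rw [Equiv.apply_symm_apply]
        show N c (fun i => ((e (e.symm ⟨z i, hzU i⟩) : U) : Fin n))
        rw [h2]
        exact hz)
      have h3 : (fun i => f₀ (e.symm ⟨z i, hzU i⟩)) =
          fun i => (if hx : z i ∈ U then f₀ (e.symm ⟨z i, hx⟩) else Classical.arbitrary B) := by
        funext i
        rw [dif_pos (hzU i)]
      exact Eq.mp (congrArg (IsEmb (nu ρ σ c).2 𝔹) h3) h1)
    rw [real_iff] at hf
    refine ⟨f, fun l z hz => ?_⟩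
    obtain ⟨c, ⟨hc, x, hx1, hx2⟩, h, hN⟩ := hN2 l z hz
    have h1 := hf c _ hN
    obtain ⟨g, hg, hgx⟩ := Pool.Agent.H18.SF.exists_aut_of_ty hH
      (fun i => f (z (Fin.cast h i))) x (by
        refine Prod.ext ?_ ?_
        · funext i j
          exact propext ⟨fun h5 => congrArg x (h1.1 h5), fun h5 =>
            congrArg (fun i => f (z (Fin.cast h i))) (hx2.1 h5)⟩
        · funext k w
          exact propext ((h1.2 k w).symm.trans (hx2.2 k w)))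
    have h6 : 𝔸 (nu ρ σ c).1 (fun i => f (z (Fin.cast h i))) := by
      have h7 := (hA g hg (nu ρ σ c).1 x).1 hx1
      have h8 : (fun i => g (x i)) = fun i => f (z (Fin.cast h i)) := funext hgx
      rw [h8] at h7
      exact h7
    exact cast_col hc h (fun i => f (z i)) h6

end main

end Pool.Agent.H57.LCI
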