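import Pool.Agent.H57.LCI.Bound

/-!
# The generic metric spaces with distances `1, …, n` have local completions
-/

set_option autoImplicit false

namespace Pool.Agent.H57.LCI

open Pool.Agent.H68.BP Pool.Agent.H58.SF Pool.Agent.H53.GM
open Pool.Agent.H53.NR (pull)
open Function

section

variable {B : Type} {n : ℕ} {𝔹 : Str (mSig n) B}

open Classical in
/-- the distance -/
noncomputable def dB (𝔹 : Str (mSig n) B) (x y : B) : ℕ :=
  if h : ∃ l : Fin n, 𝔹 l (fun i : Fin 2 => if i = 0 then x else y) then (h.choose : ℕ) + 1 else 0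

theorem dB_fin (hB : MetricAge n 𝔹) {k : ℕ} (s : Fin k → B) (hs : Injective s) :
    IsMet n (fun i j => dB 𝔹 (s i) (s j)) ∧ ∀ (l : Fin n) (z : Fin 2 → Fin k),
      𝔹 l (fun i : Fin 2 => s (z i)) ↔ dB 𝔹 (s (z 0)) (s (z 1)) = (l : ℕ) + 1 := by
  classical
  obtain ⟨d, hd, hd2⟩ := (hB k (pull 𝔹 s)).1 ⟨s, hs, fun l z => Iff.rfl⟩
  have key : ∀ i j, dB 𝔹 (s i) (s j) = d i j := by
    intro i j
    have h0 : ∀ l : Fin n, 𝔹 l (fun a : Fin 2 => if a = 0 then s i else s j) ↔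
        d i j = (l : ℕ) + 1 := by
      intro l
      have h1 := hd2 l (fun a : Fin 2 => if a = 0 then i else j)
      have h2 : pull 𝔹 s l (fun a : Fin 2 => if a = 0 then i else j) ↔
          𝔹 l (fun a : Fin 2 => if a = 0 then s i else s j) := by
        have h3 : (fun a : Fin 2 => s (if a = 0 then i else j)) =
            fun a : Fin 2 => if a = 0 then s i else s j := by
          funext a
          split_ifs <;> rfl
        show 𝔹 l (fun a : Fin 2 => s (if a = 0 then i else j)) ↔ _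
        rw [h3]
      rw [← h2, h1]
      simp
    unfold dB
    split_ifs with h
    · exact ((h0 _).1 h.choose_spec).symm
    · by_contra hne
      have h1 := hd.le i j
      have h2 : d i j ≠ 0 := fun h3 => hne h3.symm
      refine h ⟨⟨d i j - 1, by omega⟩, (h0 _).2 ?_⟩
      show d i j = (d i j - 1) + 1
      omega
  have e : (fun i j => dB 𝔹 (s i) (s j)) = d := by
    funext i j
    exact key i j
  refine ⟨e ▸ hd, fun l z => ?_⟩
  rw [key]
  exact hd2 l z

/-- the whole structure is a metric space -/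
theorem dB_met (hB : MetricAge n 𝔹) : IsMet n (dB 𝔹) ∧ ∀ (l : Fin n) (z : Fin 2 → B),
    𝔹 l z ↔ dB 𝔹 (z 0) (z 1) = (l : ℕ) + 1 := by
  classical
  have hcov : ∀ S : Finset B, ∃ s : Fin S.card → B, Injective s ∧ ∀ x ∈ S, ∃ i, s i = x := by
    intro S
    refine ⟨fun i => (S.equivFin.symm i : B),
      fun i j hij => S.equivFin.symm.injective (Subtype.ext hij), fun x hx => ⟨S.equivFin ⟨x, hx⟩, ?_⟩⟩
    show ((S.equivFin.symm (S.equivFin ⟨x, hx⟩) : S) : B) = x
    rw [Equiv.symm_apply_apply]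
  refine ⟨⟨fun x y => ?_, fun x y => ?_, fun x y z => ?_, fun x y => ?_⟩, fun l z => ?_⟩
  · obtain ⟨s, hs, hs2⟩ := hcov {x, y}
    obtain ⟨i, hi⟩ := hs2 x (by simp)
    obtain ⟨j, hj⟩ := hs2 y (by simp)
    have h : dB 𝔹 (s i) (s j) = 0 ↔ i = j := (dB_fin hB s hs).1.zero i j
    rw [← hs.eq_iff, hi, hj] at h
    exact h
  · obtain ⟨s, hs, hs2⟩ := hcov {x, y}
    obtain ⟨i, hi⟩ := hs2 x (by simp)
    obtain ⟨j, hj⟩ := hs2 y (by simp)
    have h : dB 𝔹 (s i) (s j) = dB 𝔹 (s j) (s i) := (dB_fin hB s hs).1.symm i j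
    rw [hi, hj] at h
    exact h
  · obtain ⟨s, hs, hs2⟩ := hcov {x, y, z}
    obtain ⟨i, hi⟩ := hs2 x (by simp)
    obtain ⟨j, hj⟩ := hs2 y (by simp)
    obtain ⟨j', hj'⟩ := hs2 z (by simp)
    have h : dB 𝔹 (s i) (s j') ≤ dB 𝔹 (s i) (s j) + dB 𝔹 (s j) (s j') :=
      (dB_fin hB s hs).1.tri i j j'
    rw [hi, hj, hj'] at h
    exact h
  · obtain ⟨s, hs, hs2⟩ := hcov {x, y}
    obtain ⟨i, hi⟩ := hs2 x (by simp)
    obtain ⟨j, hj⟩ := hs2 y (by simp)
    have h : dB 𝔹 (s i) (s j) ≤ n := (dB_fin hB s hs).1.le i j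
    rw [hi, hj] at h
    exact h
  · obtain ⟨s, hs, hs2⟩ := hcov (Finset.univ.image z)
    choose t ht using fun i : Fin 2 => hs2 (z i) (Finset.mem_image_of_mem z (Finset.mem_univ i))
    have h1 := (dB_fin hB s hs).2 l t
    have h2 : (fun i : Fin 2 => s (t i)) = z := funext ht
    rw [h2, ht, ht] at h1
    exact h1

/-- the distance of two entries of a realized prescription -/
theorem dist_eq (hB : MetricAge n 𝔹) {X : Type} {p : Pre (mSig n) X} {f f' : X → B}
    (hf : Realizes 𝔹 f p) (hf' : Realizes 𝔹 f' p) (a b : Fin p.1) :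
    dB 𝔹 (f (p.2.1 a)) (f (p.2.1 b)) = dB 𝔹 (f' (p.2.1 a)) (f' (p.2.1 b)) := by
  obtain ⟨hm, hm2⟩ := dB_met hB
  have h0 : ∀ (g : X → B), Realizes 𝔹 g p → ∀ l : Fin n,
      (p.2.2 l (fun i : Fin 2 => if i = 0 then a else b) ↔
        dB 𝔹 (g (p.2.1 a)) (g (p.2.1 b)) = (l : ℕ) + 1) := by
    intro g hg l
    have h1 := hg.2 l (fun i : Fin 2 => if i = 0 then a else b)
    have h2 := hm2 l (fun i : Fin 2 => g (p.2.1 (if i = 0 then a else b)))
    exact h1.trans (h2.trans (by simp))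
  have h1 := hm.le (f (p.2.1 a)) (f (p.2.1 b))
  have h2 := hm.le (f' (p.2.1 a)) (f' (p.2.1 b))
  by_cases hz : dB 𝔹 (f (p.2.1 a)) (f (p.2.1 b)) = 0
  · by_contra hne
    have h3 : dB 𝔹 (f' (p.2.1 a)) (f' (p.2.1 b)) ≠ 0 := fun h4 => hne (hz.trans h4.symm)
    have h4 := (h0 f' hf' ⟨dB 𝔹 (f' (p.2.1 a)) (f' (p.2.1 b)) - 1, by omega⟩).2 (by
      show dB 𝔹 (f' (p.2.1 a)) (f' (p.2.1 b)) = (dB 𝔹 (f' (p.2.1 a)) (f' (p.2.1 b)) - 1) + 1
      omega)
    have h5 := (h0 f hf _).1 h4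
    omega
  · have h4 := (h0 f hf ⟨dB 𝔹 (f (p.2.1 a)) (f (p.2.1 b)) - 1, by omega⟩).2 (by
      show dB 𝔹 (f (p.2.1 a)) (f (p.2.1 b)) = (dB 𝔹 (f (p.2.1 a)) (f (p.2.1 b)) - 1) + 1
      omega)
    have h5 := (h0 f' hf' _).1 h4
    have h6 : dB 𝔹 (f' (p.2.1 a)) (f' (p.2.1 b)) =
      (dB 𝔹 (f (p.2.1 a)) (f (p.2.1 b)) - 1) + 1 := h5
    omega

/-- the prescribed distances -/
def Ed (𝔹 : Str (mSig n) B) {X : Type} (P : Set (Pre (mSig n) X)) (x y : X) (k : ℕ) : Prop :=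
  ∃ p ∈ P, ∃ a b : Fin p.1, p.2.1 a = x ∧ p.2.1 b = y ∧ ∃ f : X → B, Realizes 𝔹 f p ∧
    dB 𝔹 (f x) (f y) = k

/-- the lengths of the paths -/
inductive Pth (𝔹 : Str (mSig n) B) {X : Type} (P : Set (Pre (mSig n) X)) (x : X) : X → ℕ → Prop
  | nil : Pth 𝔹 P x x 0
  | snoc {y z : X} {m k : ℕ} : Pth 𝔹 P x y m → Ed 𝔹 P y z k → Pth 𝔹 P x z (m + k)

theorem ed_symm (hB : MetricAge n 𝔹) {X : Type} {P : Set (Pre (mSig n) X)} {x y : X} {k : ℕ}
    (h : Ed 𝔹 P x y k) : Ed 𝔹 P y x k := by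
  obtain ⟨p, hp, a, b, ha, hb, f, hf, hk⟩ := h
  exact ⟨p, hp, b, a, hb, ha, f, hf, ((dB_met hB).1.symm _ _).trans hk⟩

theorem ed_zero (hB : MetricAge n 𝔹) {X : Type} {P : Set (Pre (mSig n) X)} {x y : X}
    (h : Ed 𝔹 P x y 0) : x = y := by
  obtain ⟨p, hp, a, b, ha, hb, f, hf, hk⟩ := h
  have h1 := ((dB_met hB).1.zero _ _).1 hk
  rw [← ha, ← hb] at h1 ⊢
  exact congrArg _ (hf.1 h1)

theorem ed_le (hB : MetricAge n 𝔹) {X : Type} {P : Set (Pre (mSig n) X)} {x y : X} {k : ℕ}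
    (h : Ed 𝔹 P x y k) : k ≤ n := by
  obtain ⟨p, hp, a, b, ha, hb, f, hf, hk⟩ := h
  rw [← hk]
  exact (dB_met hB).1.le _ _

theorem pth_trans {X : Type} {P : Set (Pre (mSig n) X)} {x y z : X} {m k : ℕ}
    (h1 : Pth 𝔹 P x y m) (h2 : Pth 𝔹 P y z k) : Pth 𝔹 P x z (m + k) := by
  induction h2 with
  | nil => exact h1
  | snoc _ he ih =>
    rw [← Nat.add_assoc]
    exact Pth.snoc ih he

theorem pth_symm (hB : MetricAge n 𝔹) {X : Type} {P : Set (Pre (mSig n) X)} {x y : X} {m : ℕ}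
    (h : Pth 𝔹 P x y m) : Pth 𝔹 P y x m := by
  induction h with
  | nil => exact Pth.nil
  | snoc _ he ih =>
    have h1 := Pth.snoc (Pth.nil (𝔹 := 𝔹) (P := P)) (ed_symm hB he)
    have h2 := pth_trans h1 ih
    rw [Nat.zero_add, Nat.add_comm] at h2
    exact h2

theorem pth_zero (hB : MetricAge n 𝔹) {X : Type} {P : Set (Pre (mSig n) X)} {x y : X} {m : ℕ}
    (h : Pth 𝔹 P x y m) (hm : m = 0) : x = y := by
  induction h with
  | nil => rfl
  | @snoc y z m k h1 he ih =>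
    have hk : k = 0 := by omega
    subst hk
    exact (ih (by omega)).trans (ed_zero hB he)

/-- a path of length `m` uses at most `m` prescriptions -/
theorem pth_cover (hB : MetricAge n 𝔹) {X : Type} [DecidableEq X] {P : Set (Pre (mSig n) X)}
    {r : ℕ} (hr : ∀ p ∈ P, p.1 ≤ r) {x y : X} {m : ℕ} (h : Pth 𝔹 P x y m) :
    ∃ U : Finset X, U.card ≤ m * r ∧ ∀ f : X → B,
      (∀ p ∈ P, (∀ i, p.2.1 i ∈ U) → Realizes 𝔹 f p) → dB 𝔹 (f x) (f y) ≤ m := by
  obtain ⟨hm, -⟩ := dB_met hB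
  induction h with
  | nil =>
    refine ⟨∅, by simp, fun f _ => ?_⟩
    rw [(hm.zero _ _).2 rfl]
  | @snoc y z m k h1 he ih =>
    obtain ⟨U, hU1, hU2⟩ := ih
    by_cases hk : k = 0
    · subst hk
      rw [← ed_zero hB he]
      exact ⟨U, hU1, hU2⟩
    · obtain ⟨p, hp, a, b, ha, hb, f₀, hf₀, hk0⟩ := he
      refine ⟨U ∪ Finset.univ.image p.2.1, ?_, fun f hf => ?_⟩
      · refine le_trans (Finset.card_union_le _ _) ?_
        have h2 : (Finset.univ.image p.2.1).card ≤ r := by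
          refine le_trans Finset.card_image_le ?_
          rw [Finset.card_univ, Fintype.card_fin]
          exact hr p hp
        have h3 : m * r + r ≤ (m + k) * r := by
          have : m * r + 1 * r ≤ (m + k) * r := by
            rw [← Nat.add_mul]
            exact Nat.mul_le_mul_right r (by omega)
          omega
        omega
      · have h4 := hU2 f fun q hq hq2 => hf q hq fun i => Finset.mem_union_left _ (hq2 i)
        have h5 := hf p hp fun i => Finset.mem_union_right _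
          (Finset.mem_image_of_mem _ (Finset.mem_univ i))
        have h6 := dist_eq hB h5 hf₀ a b
        rw [ha, hb, hk0] at h6
        have h7 := hm.tri (f x) (f y) (f z)
        omega

theorem lc_metric (hn : 1 ≤ n) (hB : MetricAge n 𝔹) : LocalCompletions 𝔹 := by
  classical
  obtain ⟨hm, hm2⟩ := dB_met hB
  intro r
  refine ⟨(n + 1) * r, fun N P hr hloc => ?_⟩
  have hone : ∀ p ∈ P, ∃ f : Fin N → B, Realizes 𝔹 f p := by
    intro p hp
    obtain ⟨f, hf⟩ := hloc (Finset.univ.image p.2.1) (by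
      refine le_trans Finset.card_image_le ?_
      rw [Finset.card_univ, Fintype.card_fin]
      exact le_trans (hr p hp) (Nat.le_mul_of_pos_left r (by omega)))
    exact ⟨f, hf p hp fun i => Finset.mem_image_of_mem _ (Finset.mem_univ i)⟩
  -- prescribed distances are shortest
  have hshort : ∀ x y k m, Ed 𝔹 P x y k → Pth 𝔹 P x y m → k ≤ m := by
    intro x y k m he hp
    by_cases hmn : n ≤ m
    · exact le_trans (ed_le hB he) hmn
    · obtain ⟨U, hU1, hU2⟩ := pth_cover hB hr hp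
      obtain ⟨p, hpP, a, b, ha, hb, f₀, hf₀, hk0⟩ := he
      have h2 : (Finset.univ.image p.2.1).card ≤ r := by
        refine le_trans Finset.card_image_le ?_
        rw [Finset.card_univ, Fintype.card_fin]
        exact hr p hpP
      obtain ⟨f, hf⟩ := hloc (U ∪ Finset.univ.image p.2.1) (by
        refine le_trans (Finset.card_union_le _ _) ?_
        have h3 : m * r + 1 * r ≤ (n + 1) * r := by
          rw [← Nat.add_mul]
          exact Nat.mul_le_mul_right r (by omega)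
        omega)
      have h4 := hU2 f fun q hq hq2 => hf q hq fun i => Finset.mem_union_left _ (hq2 i)
      have h5 := hf p hpP fun i => Finset.mem_union_right _
        (Finset.mem_image_of_mem _ (Finset.mem_univ i))
      have h6 := dist_eq hB h5 hf₀ a b
      rw [ha, hb, hk0] at h6
      omega
  let Q : Fin N → Fin N → Set ℕ := fun x y => {m | Pth 𝔹 P x y m ∨ (m = n ∧ x ≠ y)}
  have hQn : ∀ x y, (Q x y).Nonempty := by
    intro x y
    by_cases hxy : x = y
    · subst hxy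
      exact ⟨0, Or.inl Pth.nil⟩
    · exact ⟨n, Or.inr ⟨rfl, hxy⟩⟩
  have hle : ∀ x y, sInf (Q x y) ≤ n := by
    intro x y
    by_cases hxy : x = y
    · subst hxy
      exact le_trans (Nat.sInf_le (Or.inl Pth.nil)) (Nat.zero_le n)
    · exact Nat.sInf_le (Or.inr ⟨rfl, hxy⟩)
  have hmet : IsMet n (fun x y => sInf (Q x y)) := by
    refine ⟨fun x y => ?_, fun x y => ?_, fun x y z => ?_, hle⟩
    · constructor
      · intro h0
        have h1 := Nat.sInf_mem (hQn x y)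
        rw [show sInf (Q x y) = 0 from h0] at h1
        rcases h1 with h1 | ⟨h1, -⟩
        · exact pth_zero hB h1 rfl
        · omega
      · rintro rfl
        exact Nat.le_zero.1 (Nat.sInf_le (Or.inl Pth.nil))
    · have h1 : ∀ x y, Q x y ⊆ Q y x := by
        rintro x y m (h2 | ⟨h2, h3⟩)
        · exact Or.inl (pth_symm hB h2)
        · exact Or.inr ⟨h2, Ne.symm h3⟩
      show sInf (Q x y) = sInf (Q y x)
      rw [Set.Subset.antisymm (h1 x y) (h1 y x)]
    · show sInf (Q x z) ≤ sInf (Q x y) + sInf (Q y z)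
      rcases Nat.sInf_mem (hQn x y) with h1 | ⟨h1, -⟩
      · rcases Nat.sInf_mem (hQn y z) with h2 | ⟨h2, -⟩
        · exact Nat.sInf_le (Or.inl (pth_trans h1 h2))
        · have := hle x z
          omega
      · have := hle x z
        omega
  have hEd : ∀ x y k, Ed 𝔹 P x y k → sInf (Q x y) = k := by
    intro x y k he
    refine le_antisymm (Nat.sInf_le (Or.inl ?_)) ?_
    · have h1 := Pth.snoc (Pth.nil (𝔹 := 𝔹) (P := P)) he
      rw [Nat.zero_add] at h1
      exact h1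
    · rcases Nat.sInf_mem (hQn x y) with h1 | ⟨h1, -⟩
      · exact hshort x y k _ he h1
      · rw [h1]
        exact ed_le hB he
  obtain ⟨f, hf1, hf2⟩ := (hB N (fun (l : Fin n) (z : Fin 2 → Fin N) =>
    sInf (Q (z 0) (z 1)) = (l : ℕ) + 1)).2 ⟨_, hmet, fun l z => Iff.rfl⟩
  refine ⟨f, fun p hp => ?_⟩
  obtain ⟨g, hg⟩ := hone p hp
  refine ⟨fun a b hab => ?_, fun l z => ?_⟩
  · exact hg.1 (congrArg g (hf1 hab))
  · have h1 : p.2.2 l z ↔ 𝔹 l (fun i => g (p.2.1 (z i))) := hg.2 l z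
    have h2 := hm2 l (fun i => g (p.2.1 (z i)))
    have h3 : sInf (Q (p.2.1 (z (0 : Fin 2))) (p.2.1 (z (1 : Fin 2)))) =
        dB 𝔹 (g (p.2.1 (z (0 : Fin 2)))) (g (p.2.1 (z (1 : Fin 2)))) :=
      hEd _ _ _ ⟨p, hp, z (0 : Fin 2), z (1 : Fin 2), rfl, rfl, g, hg, rfl⟩
    have h4 : (sInf (Q (p.2.1 (z (0 : Fin 2))) (p.2.1 (z (1 : Fin 2)))) = (l : ℕ) + 1) ↔
        𝔹 l (fun i => f (p.2.1 (z i))) := hf2 l (fun i => p.2.1 (z i))
    rw [h3] at h4
    exact h1.trans (h2.trans h4)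

end

end Pool.Agent.H57.LCI
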